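import Pool.Agent.Run7.h608.TK.Iface

/-!
# Project TK, pieces CNT, REC, HER, DEN
-/

set_option autoImplicit false

open MeasureTheory Set Filter Topology
open scoped ENNReal
open R109.GT

namespace Run7.h374.TK

open Run7.h608.TK

theorem mem_ivs {n : ℕ} {i : ℤ} : i ∈ ivs n ↔ 0 ≤ i ∧ i < 2 ^ n := by
  unfold ivs
  exact Finset.mem_Ico

theorem J_sub {n : ℕ} {i : ℤ} (hi : i ∈ ivs n) : J n i ⊆ Ico (0:ℝ) 1 := by
  rw [mem_ivs] at hi
  have h2 : (0 : ℝ) < 2 ^ n := by positivity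
  intro x hx
  rw [PC.J_eq_Ico] at hx
  obtain ⟨h3, h4⟩ := hx
  have h5 : (0:ℝ) ≤ i := by exact_mod_cast hi.1
  have h6 : (i:ℝ) + 1 ≤ 2 ^ n := by
    have : i + 1 ≤ 2 ^ n := hi.2
    exact_mod_cast this
  refine ⟨le_trans (by positivity) h3, lt_of_lt_of_le h4 ?_⟩
  rw [div_le_one h2]
  exact h6

/-- the occupation measure of a set is a volume -/
theorem occ_apply {w : ℕ → ℤ → ℤ} (hw : Sgn w) {E : Set ℝ} (hE : MeasurableSet E) :
    occ w E = volume (tak w ⁻¹' E ∩ Ico (0:ℝ) 1) := by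
  have hm : Measurable (tak w) := (cont w hw).measurable
  unfold occ
  rw [Measure.map_apply hm hE, Measure.restrict_apply (hm hE)]

/-- the range of the function on a dyadic interval -/
theorem range_J {w : ℕ → ℤ → ℤ} (hw : Sgn w) {n : ℕ} {i : ℤ} {x : ℝ} (hx : x ∈ J n i) :
    (2:ℝ) ^ n * tak w x ≤ max (val w n i : ℝ) ((val w n i : ℝ) + slope w n i) + 1 ∧
    min (val w n i : ℝ) ((val w n i : ℝ) + slope w n i) - 1 ≤ (2:ℝ) ^ n * tak w x := by
  have h2 : (0 : ℝ) < 2 ^ n := by positivity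
  have he := tak_eq w hw n x
  have hb := bound (fun m => w (n + m)) (fun a b => hw (n + a) b) ((2:ℝ) ^ n * x)
  rw [abs_le] at hb
  have hfl : ⌊(2:ℝ) ^ n * x⌋ = i := hx
  unfold S at he
  rw [hfl] at he
  have hf0 := Int.floor_le ((2:ℝ) ^ n * x)
  have hf1 := Int.lt_floor_add_one ((2:ℝ) ^ n * x)
  rw [hfl] at hf0 hf1
  have e1 : (2:ℝ) ^ n * tak w x = (val w n i : ℝ) + (slope w n i : ℝ) * ((2:ℝ) ^ n * x - i)
      + tak (fun m => w (n + m)) ((2:ℝ) ^ n * x) := by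
    rw [he]
    field_simp
  rw [e1]
  set f := (2:ℝ) ^ n * x - i with hf
  have f0 : 0 ≤ f := by linarith
  have f1 : f ≤ 1 := by linarith
  rcases le_total 0 (slope w n i : ℝ) with hs | hs
  · rw [max_eq_right (by linarith), min_eq_left (by linarith)]
    constructor
    · nlinarith [hb.2]
    · nlinarith [hb.1]
  · rw [max_eq_left (by linarith), min_eq_right (by linarith)]
    constructor
    · nlinarith [hb.2]
    · nlinarith [hb.1]

/-- **CNT** -/
theorem t_CNT : S_CNT := by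
  intro w D hw hD hB n K q
  have h2 : (0 : ℝ) < 2 ^ n := by positivity
  set I := (ivs n).filter (fun i => Cr w n i q ∧ |slope w n i| ≤ (K:ℤ)) with hI
  set A : ℝ := ((q:ℝ) - K - 2) / 2 ^ n with hA
  set B : ℝ := ((q:ℝ) + K + 3) / 2 ^ n with hB'
  have hsub : (⋃ i ∈ I, J n i) ⊆ tak w ⁻¹' (Icc A B) ∩ Ico (0:ℝ) 1 := by
    intro x hx
    simp only [mem_iUnion] at hx
    obtain ⟨i, hi, hx⟩ := hx
    rw [hI, Finset.mem_filter] at hi
    obtain ⟨hi1, hcr, hsl⟩ := hi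
    refine ⟨?_, J_sub hi1 hx⟩
    obtain ⟨u1, u2⟩ := range_J hw hx
    rw [abs_le] at hsl
    have s1 : -(K:ℝ) ≤ slope w n i := by exact_mod_cast hsl.1
    have s2 : (slope w n i : ℝ) ≤ K := by exact_mod_cast hsl.2
    show A ≤ tak w x ∧ tak w x ≤ B
    rw [hA, hB', div_le_iff₀ h2, le_div_iff₀ h2]
    rcases hcr with ⟨c1, c2⟩ | ⟨c1, c2⟩
    · have c1' : (val w n i : ℝ) ≤ q := by exact_mod_cast c1
      have c2' : (q : ℝ) + 1 ≤ val w n i + slope w n i := by exact_mod_cast c2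
      rw [max_eq_right (by linarith)] at u1
      rw [min_eq_left (by linarith)] at u2
      constructor <;> nlinarith
    · have c1' : (val w n i : ℝ) + slope w n i ≤ q := by exact_mod_cast c1
      have c2' : (q : ℝ) + 1 ≤ val w n i := by exact_mod_cast c2
      rw [max_eq_left (by linarith)] at u1
      rw [min_eq_right (by linarith)] at u2
      constructor <;> nlinarith
  have hvol : volume (⋃ i ∈ I, J n i) = (I.card : ℝ≥0∞) * ENNReal.ofReal (1 / 2 ^ n) := by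
    rw [measure_biUnion_finset]
    · simp only [vol_J, Finset.sum_const, nsmul_eq_mul]
    · intro i _ j _ hij
      exact PC.J_disj n hij
    · intro i _
      exact PC.measurableSet_J n i
  have hle := measure_mono (μ := (volume : Measure ℝ)) hsub
  rw [hvol, ← occ_apply hw measurableSet_Icc] at hle
  have h3 := (Measure.le_iff.1 hB) (Icc A B) measurableSet_Icc
  rw [Measure.smul_apply, Real.volume_Icc, smul_eq_mul] at h3
  have h4 : (I.card : ℝ≥0∞) * ENNReal.ofReal (1 / 2 ^ n) ≤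
      ENNReal.ofReal D * ENNReal.ofReal (B - A) := hle.trans h3
  have h5 : B - A = (2 * K + 5) / 2 ^ n := by
    rw [hA, hB']
    ring
  rw [h5, ← ENNReal.ofReal_natCast, ← ENNReal.ofReal_mul (by positivity), ← ENNReal.ofReal_mul hD,
    ENNReal.ofReal_le_ofReal_iff (by positivity)] at h4
  rw [mul_one_div, ← mul_div_assoc, div_le_div_iff_of_pos_right h2] at h4
  exact h4

/-- **REC** -/
theorem t_REC (hHIT : S_HIT) : S_REC := by
  intro w hw
  have hsub : Ico (0:ℝ) 1 \ Z w ⊆ ⋃ N : ℕ, ⋃ i : ℤ,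
      {x : ℝ | x ∈ J N i ∧ ∀ m, N ≤ m → S w m x ≠ 0} := by
    rintro x ⟨-, hx⟩
    have h1 : ∀ᶠ n in atTop, S w n x ≠ 0 := by
      by_contra hcon
      exact hx (by
        show ∃ᶠ n in atTop, S w n x = 0
        intro h
        exact hcon h)
    obtain ⟨N, hN⟩ := eventually_atTop.1 h1
    simp only [mem_iUnion]
    exact ⟨N, ⌊(2:ℝ) ^ N * x⌋, rfl, hN⟩
  refine measure_mono_null hsub ?_
  rw [measure_iUnion_null_iff]
  intro N
  rw [measure_iUnion_null_iff]
  intro i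
  have h2 : (0 : ℝ) < 2 ^ N := by positivity
  have hle : ∀ b : ℕ, 1 ≤ b → volume {x : ℝ | x ∈ J N i ∧ ∀ m, N ≤ m → S w m x ≠ 0} ≤
      ENNReal.ofReal (2 * |(slope w N i : ℝ)| / 2 ^ N * (1 / b)) := by
    intro b hb
    have hb0 : (0:ℝ) < b := by exact_mod_cast hb
    have h3 := hHIT w hw N (b ^ 2) b i (Nat.one_le_pow _ _ hb) hb
    refine (measure_mono ?_).trans (h3.trans (le_of_eq ?_))
    · rintro x ⟨hx1, hx2⟩
      exact ⟨hx1, fun m hm _ => hx2 m hm⟩
    · congr 1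
      push_cast
      field_simp
      ring
  have hlim : Tendsto (fun b : ℕ => ENNReal.ofReal (2 * |(slope w N i : ℝ)| / 2 ^ N * (1 / b))) atTop
      (𝓝 0) := by
    rw [← ENNReal.ofReal_zero]
    apply ENNReal.tendsto_ofReal
    have := (tendsto_const_nhds (x := 2 * |(slope w N i : ℝ)| / 2 ^ N)).mul
      (tendsto_one_div_atTop_nhds_zero_nat (𝕜 := ℝ))
    rwa [mul_zero] at this
  have h4 : volume {x : ℝ | x ∈ J N i ∧ ∀ m, N ≤ m → S w m x ≠ 0} ≤ 0 :=
    ge_of_tendsto hlim (eventually_atTop.2 ⟨1, hle⟩)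
  exact le_antisymm h4 bot_le

/-- comparison of the occupation measures -/
theorem occ_sh (hSC : S_SC) {w : ℕ → ℤ → ℤ} (hw : Sgn w) {n : ℕ} {i : ℤ} (hi : i ∈ ivs n)
    (hs : slope w n i = 0) {E : Set ℝ} (hE : MeasurableSet E) :
    occ (sh w n i) E ≤ ENNReal.ofReal (2 ^ n) *
      occ w {y : ℝ | (2:ℝ) ^ n * y - val w n i ∈ E} := by
  have h2 : (0 : ℝ) < 2 ^ n := by positivity
  obtain ⟨hsg, heq, -⟩ := hSC w hw n i
  have hE' : MeasurableSet {y : ℝ | (2:ℝ) ^ n * y - val w n i ∈ E} := by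
    have : Measurable (fun y : ℝ => (2:ℝ) ^ n * y - val w n i) := by fun_prop
    exact this hE
  rw [occ_apply hsg hE, occ_apply hw hE']
  have hsub : tak (sh w n i) ⁻¹' E ∩ Ico (0:ℝ) 1 ⊆ (fun t : ℝ => t + (i:ℝ)) ⁻¹'
      ((fun u : ℝ => ((2:ℝ) ^ n)⁻¹ * u) ⁻¹'
        (tak w ⁻¹' {y : ℝ | (2:ℝ) ^ n * y - val w n i ∈ E} ∩ Ico (0:ℝ) 1)) := by
    rintro t ⟨ht, ht0, ht1⟩
    have e1 : (2:ℝ) ^ n * (((2:ℝ) ^ n)⁻¹ * (t + i)) = t + i := by field_simp
    have hx : ((2:ℝ) ^ n)⁻¹ * (t + i) ∈ J n i := by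
      show ⌊(2:ℝ) ^ n * (((2:ℝ) ^ n)⁻¹ * (t + i))⌋ = i
      rw [e1, Int.floor_eq_iff]
      constructor <;> linarith
    refine ⟨?_, J_sub hi hx⟩
    show (2:ℝ) ^ n * tak w (((2:ℝ) ^ n)⁻¹ * (t + i)) - val w n i ∈ E
    rw [heq _ hx, hs, e1]
    have e2 : (val w n i : ℝ) + ((0 : ℤ) : ℝ) * (t + i - i) + tak (sh w n i) (t + i - i) - val w n i =
        tak (sh w n i) t := by
      rw [add_sub_cancel_right]
      push_cast
      ring
    rw [e2]
    exact ht
  refine (measure_mono hsub).trans (le_of_eq ?_)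
  rw [measure_preimage_add_right, Real.volume_preimage_mul_left (inv_ne_zero h2.ne'), inv_inv,
    abs_of_pos h2]

/-- **HER** -/
theorem t_HER (hSC : S_SC) : S_HER := by
  intro w D hw hB n i hi hs
  have h2 : (0 : ℝ) < 2 ^ n := by positivity
  unfold Bd
  rw [Measure.le_iff]
  intro E hE
  have hE' : MeasurableSet {y : ℝ | (2:ℝ) ^ n * y - val w n i ∈ E} := by
    have : Measurable (fun y : ℝ => (2:ℝ) ^ n * y - val w n i) := by fun_prop
    exact this hE
  have h3 := (Measure.le_iff.1 hB) _ hE'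
  refine (occ_sh hSC hw hi hs hE).trans ?_
  rw [Measure.smul_apply, smul_eq_mul] at h3 ⊢
  have h4 : volume {y : ℝ | (2:ℝ) ^ n * y - val w n i ∈ E} = ENNReal.ofReal ((2 ^ n)⁻¹) * volume E := by
    have e : {y : ℝ | (2:ℝ) ^ n * y - val w n i ∈ E} =
        (fun y : ℝ => (2:ℝ) ^ n * y) ⁻¹' ((fun u : ℝ => u + (-(val w n i : ℝ))) ⁻¹' E) := by
      ext y
      simp only [mem_preimage, Set.mem_ofPred_eq, sub_eq_add_neg]
    rw [e, Real.volume_preimage_mul_left h2.ne', measure_preimage_add_right,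
      abs_of_pos (inv_pos.2 h2)]
  rw [h4] at h3
  calc ENNReal.ofReal (2 ^ n) * occ w {y : ℝ | (2:ℝ) ^ n * y - val w n i ∈ E}
      ≤ ENNReal.ofReal (2 ^ n) * (ENNReal.ofReal D * (ENNReal.ofReal ((2 ^ n)⁻¹) * volume E)) := by
        gcongr
    _ = (ENNReal.ofReal (2 ^ n) * ENNReal.ofReal ((2 ^ n)⁻¹)) * (ENNReal.ofReal D * volume E) := by
        ring
    _ = ENNReal.ofReal D * volume E := by
        rw [← ENNReal.ofReal_mul h2.le, mul_inv_cancel₀ h2.ne', ENNReal.ofReal_one, one_mul]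

/-- the occupation measure is concentrated on `[-1, 1]` -/
theorem occ_conc {w : ℕ → ℤ → ℤ} (hw : Sgn w) {E F : Set ℝ} (hE : MeasurableSet E)
    (hF : MeasurableSet F) (h : E ∩ Icc (-1) 1 ⊆ F) : occ w E ≤ occ w F := by
  rw [occ_apply hw hE, occ_apply hw hF]
  apply measure_mono
  rintro x ⟨hx, hx'⟩
  have hb := bound w hw x
  rw [abs_le] at hb
  exact ⟨h ⟨hx, hb⟩, hx'⟩

/-- **DEN** -/
theorem t_DEN (hSC : S_SC) (hBDC : S_BDC) (hREC : S_REC) : S_DEN := by
  intro D0 hExt w hw hB a b hab η hη hηD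
  by_contra hcon
  push Not at hcon
  -- a point of `Z w` over the interval
  obtain ⟨x, hxZ, hx01, hxab⟩ : ∃ x, x ∈ Z w ∧ x ∈ Ico (0:ℝ) 1 ∧ tak w x ∈ Ioo a b := by
    by_contra hno
    push Not at hno
    rw [occ_apply hw measurableSet_Ioo] at hab
    have : tak w ⁻¹' Ioo a b ∩ Ico (0:ℝ) 1 ⊆ Ico (0:ℝ) 1 \ Z w := by
      rintro x ⟨h1, h2⟩
      exact ⟨h2, fun h3 => hno x h3 h2 h1⟩
    have h3 := measure_mono (μ := (volume : Measure ℝ)) this
    rw [hREC w hw] at h3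
    exact absurd hab (not_lt.2 h3)
  obtain ⟨ha, hb⟩ := hxab
  -- a large level of slope zero
  obtain ⟨n, hn, hS⟩ : ∃ n : ℕ, (2:ℝ) * (1 / 2) ^ n < min (tak w x - a) (b - tak w x) ∧ S w n x = 0 := by
    have hpos : 0 < min (tak w x - a) (b - tak w x) := lt_min (by linarith) (by linarith)
    have h1 : Tendsto (fun n : ℕ => (2:ℝ) * (1 / 2) ^ n) atTop (𝓝 0) := by
      have := (tendsto_pow_atTop_nhds_zero_of_lt_one (by norm_num : (0:ℝ) ≤ 1 / 2)
        (by norm_num)).const_mul (2:ℝ)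
      rwa [mul_zero] at this
    have h2 := h1.eventually (gt_mem_nhds hpos)
    have hfr : ∃ᶠ n in atTop, S w n x = 0 := hxZ
    obtain ⟨n, h3, h4⟩ := (hfr.and_eventually h2).exists
    exact ⟨n, h4, h3⟩
  have h2 : (0 : ℝ) < 2 ^ n := by positivity
  set i := ⌊(2:ℝ) ^ n * x⌋ with hi
  have hxJ : x ∈ J n i := rfl
  have hs : slope w n i = 0 := hS
  have hiv : i ∈ ivs n := by
    rw [mem_ivs]
    constructor
    · exact Int.floor_nonneg.2 (mul_nonneg h2.le hx01.1)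
    · rw [hi, Int.floor_lt]
      push_cast
      nlinarith [hx01.2]
  obtain ⟨hsg, heq, -⟩ := hSC w hw n i
  have hV : |(2:ℝ) ^ n * tak w x - val w n i| ≤ 1 := by
    have h3 := heq x hxJ
    rw [hs] at h3
    have h4 : (2:ℝ) ^ n * tak w x - val w n i = tak (sh w n i) ((2:ℝ) ^ n * x - i) := by
      rw [h3]
      push_cast
      ring
    rw [h4]
    exact bound _ hsg _
  rw [abs_le] at hV
  have hn' : (2:ℝ) / 2 ^ n < min (tak w x - a) (b - tak w x) := by
    have e : (2:ℝ) * (1 / 2) ^ n = 2 / 2 ^ n := by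
      rw [div_pow, one_pow]
      ring
    rwa [e] at hn
  obtain ⟨hn1, hn2⟩ := lt_min_iff.1 hn'
  rw [div_lt_iff₀ h2] at hn1 hn2
  have hD0 : 0 ≤ D0 - η := by linarith
  have key : ∀ p q : ℝ, -1 ≤ p → p < q → q ≤ 1 →
      occ (sh w n i) (Icc p q) ≤ ENNReal.ofReal ((D0 - η) * (q - p)) := by
    intro p q hp hpq hq
    have h5 := occ_sh hSC hw hiv hs (measurableSet_Icc (a := p) (b := q))
    have e : {y : ℝ | (2:ℝ) ^ n * y - val w n i ∈ Icc p q} =
        Icc (((val w n i : ℝ) + p) / 2 ^ n) (((val w n i : ℝ) + q) / 2 ^ n) := by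
      ext y
      simp only [mem_Icc, Set.mem_ofPred_eq]
      rw [div_le_iff₀ h2, le_div_iff₀ h2]
      constructor
      · rintro ⟨h6, h7⟩
        constructor <;> linarith
      · rintro ⟨h6, h7⟩
        constructor <;> linarith
    rw [e] at h5
    have h6 := hcon (((val w n i : ℝ) + p) / 2 ^ n) (((val w n i : ℝ) + q) / 2 ^ n)
      (by
        rw [lt_div_iff₀ h2]
        nlinarith)
      (by
        rw [div_lt_div_iff_of_pos_right h2]
        linarith)
      (by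
        rw [div_lt_iff₀ h2]
        nlinarith)
    refine h5.trans ((mul_le_mul' le_rfl h6).trans (le_of_eq ?_))
    rw [← ENNReal.ofReal_mul h2.le]
    congr 1
    field_simp
    ring
  have hBd : Bd (sh w n i) (D0 - η) := by
    refine hBDC (sh w n i) (D0 - η) hsg hD0 ?_
    intro p q hpq
    have hpq' : (p:ℝ) < q := by exact_mod_cast hpq
    by_cases h7 : (q:ℝ) ≤ -1 ∨ 1 ≤ (p:ℝ)
    · have h8 : occ (sh w n i) (Ioo (p:ℝ) q) ≤ occ (sh w n i) (∅ : Set ℝ) := by
        refine occ_conc hsg measurableSet_Ioo MeasurableSet.empty ?_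
        rintro y ⟨⟨y1, y2⟩, y3, y4⟩
        rcases h7 with h7 | h7 <;> exact absurd y1 (by linarith)
      rw [measure_empty] at h8
      exact h8.trans bot_le
    · push Not at h7
      have h9 : max (p:ℝ) (-1) < min (q:ℝ) 1 := by
        rw [max_lt_iff, lt_min_iff, lt_min_iff]
        exact ⟨⟨hpq', h7.2⟩, h7.1, by norm_num⟩
      refine (occ_conc hsg measurableSet_Ioo (measurableSet_Icc (a := max (p:ℝ) (-1))
        (b := min (q:ℝ) 1)) ?_).trans ((key _ _ (le_max_right _ _) h9 (min_le_right _ _)).trans ?_)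
      · rintro y ⟨⟨y1, y2⟩, y3, y4⟩
        exact ⟨max_le y1.le y3, le_min y2.le y4⟩
      · apply ENNReal.ofReal_le_ofReal
        apply mul_le_mul_of_nonneg_left _ hD0
        have := le_max_left (p:ℝ) (-1)
        have := min_le_left (q:ℝ) 1
        linarith
  have := hExt.2.2 (sh w n i) (D0 - η) hsg hBd
  linarith

end Run7.h374.TK
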